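import Pool.Agent.LAT.StmtsC

set_option autoImplicit false

/-!
# Squad LAT, part 2, row BNU: the entries of `u` are bounded
-/

namespace Pool.Agent.LAT.H47

open Matrix

/-- a real combination of elements of `rows B` is a combination of the nonzero rows -/
theorem rs_rows (hHnm : HnmStmt) {m : ℕ} {B : Matrix (Fin m) (Fin m) ℤ} (hB : IsHNF B)
    {p : Fin m → ℝ} (hp : p ∈ RS (rows B)) :
    ∃ x : Fin m → ℝ, (∀ k, B k k = 0 → x k = 0) ∧ ∀ j, p j = ∑ k, x k * (B k j : ℝ) := by
  unfold RS at hp
  induction hp using Submodule.span_induction with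
  | mem q hq =>
    obtain ⟨w, hw, rfl⟩ := hq
    obtain ⟨x, hx0, hx⟩ := (hHnm m B hB).2.2 w hw
    refine ⟨fun k => (x k : ℝ), fun k hk => by simp [hx0 k hk], fun j => ?_⟩
    have h1 := congrFun hx j
    rw [Finset.sum_apply] at h1
    simp only [Pi.smul_apply, smul_eq_mul] at h1
    unfold rv
    rw [h1]
    push_cast
    rfl
  | zero => exact ⟨0, fun _ _ => rfl, fun j => by simp⟩
  | add q r _ _ hq hr =>
    obtain ⟨x, hx0, hx⟩ := hq
    obtain ⟨y, hy0, hy⟩ := hr
    refine ⟨x + y, fun k hk => by simp [hx0 k hk, hy0 k hk], fun j => ?_⟩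
    rw [Pi.add_apply, hx, hy, ← Finset.sum_add_distrib]
    refine Finset.sum_congr rfl fun k _ => ?_
    simp only [Pi.add_apply]
    ring
  | smul a q _ hq =>
    obtain ⟨x, hx0, hx⟩ := hq
    refine ⟨a • x, fun k hk => by simp [hx0 k hk], fun j => ?_⟩
    rw [Pi.smul_apply, hx, smul_eq_mul, Finset.mul_sum]
    refine Finset.sum_congr rfl fun k _ => ?_
    simp only [Pi.smul_apply, smul_eq_mul]
    ring

/-- the triangular matrix -/
def TT {m : ℕ} (B : Matrix (Fin m) (Fin m) ℤ) : Matrix (Fin m) (Fin m) ℤ :=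
  Matrix.of fun i j => if B j j = 0 then (if i = j then 1 else 0) else B i j

theorem tt_det {m : ℕ} {B : Matrix (Fin m) (Fin m) ℤ} (hB : IsHNF B) : 1 ≤ (TT B).det := by
  have h1 : (TT B).det = ∏ i, TT B i i := by
    refine Matrix.det_of_isLowerTriangular (TT B) ?_
    intro i j hij
    have hij' : i < j := hij
    simp only [TT, Matrix.of_apply]
    by_cases h : B j j = 0
    · rw [if_pos h, if_neg hij'.ne]
    · rw [if_neg h, hB.tri i j hij']
  rw [h1]
  have h2 : 0 < ∏ i, TT B i i := Finset.prod_pos fun i _ => by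
    simp only [TT, Matrix.of_apply]
    by_cases h : B i i = 0
    · rw [if_pos h]
      simp
    · rw [if_neg h]
      exact lt_of_le_of_ne (hB.nonneg i) (Ne.symm h)
  omega

theorem bnu (hHnm : HnmStmt) : BnuStmt := by
  intro m B u v d b hB hb hBb hv hdb hu hp
  obtain ⟨p, hpR, hp⟩ := hp
  obtain ⟨x, hx0, hx⟩ := rs_rows hHnm hB hpR
  have hbR : (1 : ℝ) ≤ b := by exact_mod_cast hb
  have hb0 : (0 : ℝ) ≤ b := by linarith
  -- the distance
  have hgp : ∀ j, |((v j : ℝ) - u j) - p j| ≤ b := by
    intro j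
    have h1 : (((v j : ℝ) - u j) - p j) ^ 2 ≤ sq (rv (v - u) - p) := by
      unfold sq
      rw [dotProduct]
      have h2 : ∀ i, 0 ≤ (rv (v - u) - p) i * (rv (v - u) - p) i := fun i => mul_self_nonneg _
      have h3 := Finset.single_le_sum (fun i _ => h2 i) (Finset.mem_univ j)
      refine le_trans (le_of_eq ?_) h3
      simp only [rv, Pi.sub_apply, Int.cast_sub]
      ring
    have h4 : (d : ℝ) ≤ b ^ 2 := by exact_mod_cast hdb
    exact abs_le_of_sq_le_sq (h1.trans (hp.trans h4)) hb0
  have hvR : ∀ j, |(v j : ℝ)| ≤ b := fun j => by exact_mod_cast hv j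
  have hBR : ∀ i j, |(B i j : ℝ)| ≤ b := fun i j => by exact_mod_cast hBb i j
  -- the pivots
  have hpp : ∀ j, B j j ≠ 0 → |p j| ≤ 3 * b := by
    intro j hj
    have h0 : 0 < B j j := lt_of_le_of_ne (hB.nonneg j) (Ne.symm hj)
    obtain ⟨h1, h2⟩ := hu j h0
    have h3 : |(u j : ℝ)| ≤ b := by
      have h4 : |u j| ≤ (b : ℤ) := by
        rw [abs_of_nonneg h1]
        have := (abs_le.1 (hBb j j)).2
        omega
      exact_mod_cast h4
    have e : p j = (v j : ℝ) + (-(u j : ℝ)) + (-(((v j : ℝ) - u j) - p j)) := by ring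
    rw [e]
    refine (abs_add_three _ _ _).trans ?_
    rw [abs_neg, abs_neg]
    linarith [hvR j, hgp j]
  -- the triangular matrix
  set T : Matrix (Fin m) (Fin m) ℝ := (TT B).map (Int.castRingHom ℝ) with hT
  have hTdet : T.det = ((TT B).det : ℝ) := by
    rw [hT]
    have h1 := (RingHom.map_det (Int.castRingHom ℝ) (TT B)).symm
    simpa using h1
  have hT1 : 1 ≤ T.det := by
    rw [hTdet]
    exact_mod_cast tt_det hB
  have hTb : ∀ i j, |T i j| ≤ b := by
    intro i j
    simp only [hT, Matrix.map_apply, TT, Matrix.of_apply]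
    split_ifs with h1 h2
    · simpa using hbR
    · simpa using hb0
    · exact hBR i j
  have hxT : ∀ j, |(x ᵥ* T) j| ≤ 3 * b := by
    intro j
    by_cases hj : B j j = 0
    · have e : (x ᵥ* T) j = x j := by
        rw [Matrix.vecMul, dotProduct, Finset.sum_eq_single j]
        · simp [hT, TT, hj]
        · intro i _ hij
          simp [hT, TT, hj, hij]
        · intro h
          exact absurd (Finset.mem_univ j) h
      rw [e, hx0 j hj, abs_zero]
      positivity
    · have e : (x ᵥ* T) j = p j := by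
        rw [hx j, Matrix.vecMul, dotProduct]
        refine Finset.sum_congr rfl fun i _ => ?_
        simp [hT, TT, hj]
      rw [e]
      exact hpp j hj
  have hadj : ∀ i j, |T.adjugate i j| ≤ m.factorial * (b : ℝ) ^ m := by
    intro i j
    rw [Matrix.adjugate_apply]
    have h1 := Matrix.det_le (abv := AbsoluteValue.abs) (x := (b : ℝ))
      (A := T.updateRow j (Pi.single i 1)) (fun k l => by
        change |(T.updateRow j (Pi.single i 1)) k l| ≤ b
        by_cases hk : k = j
        · subst hk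
          rw [Matrix.updateRow_self]
          by_cases hl : l = i
          · subst hl
            rw [Pi.single_eq_same, abs_one]
            exact hbR
          · rw [Pi.single_eq_of_ne hl, abs_zero]
            exact hb0
        · rw [Matrix.updateRow_ne hk]
          exact hTb k l)
    rw [Fintype.card_fin, nsmul_eq_mul] at h1
    exact h1
  -- the coefficients
  have hxb : ∀ k, |x k| ≤ m * (3 * b) * (m.factorial * (b : ℝ) ^ m) := by
    intro k
    have h1 : ((x ᵥ* T) ᵥ* T.adjugate) k = T.det * x k := by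
      rw [Matrix.vecMul_vecMul, Matrix.mul_adjugate, Matrix.vecMul_smul, Matrix.vecMul_one]
      rfl
    have h2 : |T.det * x k| ≤ m * (3 * b) * (m.factorial * (b : ℝ) ^ m) := by
      rw [← h1, Matrix.vecMul, dotProduct]
      calc |∑ i, (x ᵥ* T) i * T.adjugate i k| ≤ ∑ i, |(x ᵥ* T) i * T.adjugate i k| :=
            Finset.abs_sum_le_sum_abs _ _
        _ ≤ ∑ _i : Fin m, (3 * b) * (m.factorial * (b : ℝ) ^ m) := by
            refine Finset.sum_le_sum fun i _ => ?_
            rw [abs_mul]
            exact mul_le_mul (hxT i) (hadj i k) (abs_nonneg _) (by positivity)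
        _ = m * (3 * b) * (m.factorial * (b : ℝ) ^ m) := by
            rw [Finset.sum_const, Finset.card_univ, Fintype.card_fin, nsmul_eq_mul]
            ring
    rw [abs_mul, abs_of_pos (by linarith : 0 < T.det)] at h2
    have h3 := abs_nonneg (x k)
    nlinarith
  have hpj : ∀ j, |p j| ≤ m * (m * (3 * b) * (m.factorial * (b : ℝ) ^ m)) * b := by
    intro j
    rw [hx j]
    calc |∑ k, x k * (B k j : ℝ)| ≤ ∑ k, |x k * (B k j : ℝ)| := Finset.abs_sum_le_sum_abs _ _
      _ ≤ ∑ _k : Fin m, (m * (3 * b) * (m.factorial * (b : ℝ) ^ m)) * b := by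
          refine Finset.sum_le_sum fun k _ => ?_
          rw [abs_mul]
          exact mul_le_mul (hxb k) (hBR k j) (abs_nonneg _) (by positivity)
      _ = m * (m * (3 * b) * (m.factorial * (b : ℝ) ^ m)) * b := by
          rw [Finset.sum_const, Finset.card_univ, Fintype.card_fin, nsmul_eq_mul]
          ring
  intro j
  have h1 : |(u j : ℝ)| ≤ 2 * b + m * (m * (3 * b) * (m.factorial * (b : ℝ) ^ m)) * b := by
    have e : (u j : ℝ) = (v j : ℝ) + (-(((v j : ℝ) - u j) - p j)) + (-(p j)) := by ring
    rw [e]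
    refine (abs_add_three _ _ _).trans ?_
    rw [abs_neg, abs_neg]
    linarith [hvR j, hgp j, hpj j]
  exact_mod_cast h1

end Pool.Agent.LAT.H47
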