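import Pool.Agent.LAT.StmtsC

set_option autoImplicit false

/-!
# Squad LAT, part 2, row UNQ: unique decoding
-/

namespace Pool.Agent.LAT.H47

open Matrix

theorem unq (hGdw : GdwStmt) (hTor : TorStmt) (hPos : PosStmt) (hFis : FisStmt) : UnqStmt := by
  intro m L d M hO w hwL hp
  obtain ⟨p, hpM, hp⟩ := hp
  by_contra hw
  set N := M ⊔ Submodule.span ℤ {w} with hN
  have hwN : w ∈ N := Submodule.mem_sup_right (Submodule.mem_span_singleton_self w)
  have hlt : M < N := lt_of_le_of_ne le_sup_left fun h => hw (h ▸ hwN)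
  have hNL : N ≤ L := sup_le hO.le ((Submodule.span_singleton_le_iff_mem w L).2 hwL)
  have hup := hO.up N hlt hNL
  have gM : (1 : ℤ) ≤ gd M := hPos.2.1 m M
  have gN : (1 : ℤ) ≤ gd N := hPos.2.1 m N
  have gMq : (0 : ℚ) < gd M := by
    have : (0 : ℤ) < gd M := by omega
    exact_mod_cast this
  have gNq : (0 : ℚ) < gd N := by
    have : (0 : ℤ) < gd N := by omega
    exact_mod_cast this
  refine absurd hup (not_lt.2 ?_)
  unfold ph
  have hD : (0 : ℚ) ≤ ((4 * d : ℕ) : ℚ) := Nat.cast_nonneg _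
  by_cases hk : ∃ k : ℤ, k ≠ 0 ∧ k • w ∈ M
  · have hex : ∃ k : ℕ, 0 < k ∧ (k : ℤ) • w ∈ M := by
      obtain ⟨k, hk0, hkw⟩ := hk
      refine ⟨k.natAbs, Int.natAbs_pos.2 hk0, ?_⟩
      rcases Int.natAbs_eq k with h | h
      · rwa [← h]
      · have h2 : ((k.natAbs : ℕ) : ℤ) = -k := by omega
        rw [h2, neg_smul]
        exact M.neg_mem hkw
    classical
    obtain ⟨hk0, hkw⟩ := Nat.find_spec hex
    obtain ⟨h1, h2⟩ := hTor m M w (Nat.find hex) hk0 hkw
      (fun j hj hjk hjw => Nat.find_min hex hjk ⟨hj, hjw⟩)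
    rw [← hN] at h1 h2
    rw [h2]
    refine div_le_div_of_nonneg_left (pow_nonneg hD _) gNq ?_
    have h3 : (gd M : ℚ) = (Nat.find hex : ℚ) ^ 2 * gd N := by
      rw [h1]; push_cast; ring
    rw [h3]
    have h4 : (1 : ℚ) ≤ (Nat.find hex : ℚ) := by exact_mod_cast hk0
    have h5 : (1 : ℚ) ≤ (Nat.find hex : ℚ) ^ 2 := one_le_pow₀ h4
    nlinarith
  · have hk' : ∀ k : ℤ, k ≠ 0 → k • w ∉ M := fun k hk0 hkw => hk ⟨k, hk0, hkw⟩
    have h1 := (hGdw m M w hk').1 p hpM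
    have h2 := (hFis m M M w le_rfl hk').2.1
    rw [← hN] at h1 h2
    have gMr : (0 : ℝ) < gd M := by
      have : (0 : ℤ) < gd M := by omega
      exact_mod_cast this
    have h3 : (gd N : ℝ) ≤ gd M * (4 * d) := h1.trans (mul_le_mul_of_nonneg_left hp gMr.le)
    have h4 : gd N ≤ gd M * (4 * d) := by exact_mod_cast h3
    have h5 : (gd N : ℚ) ≤ gd M * ((4 * d : ℕ) : ℚ) := by exact_mod_cast h4
    rw [h2, div_le_div_iff₀ gMq gNq, pow_succ, mul_assoc]
    refine mul_le_mul_of_nonneg_left ?_ (pow_nonneg hD _)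
    rw [mul_comm]
    exact h5

end Pool.Agent.LAT.H47
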